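import Pool.Agent.H84.Star.Walk

/-!
The combinatorial core of the reduction: a star with recurrent edges built from a CNF formula.
-/

set_option autoImplicit false

namespace Pool.Agent.H84.Star

/-- The leaves: checkpoints, waste leaves, clause leaves and universal leaves. -/
abbrev Lf (k m : ℕ) : Type :=
  (Fin (k + 1) ⊕ Fin (k + 1)) ⊕ (Fin m ⊕ Fin (k * (2 * m + 1) - m))

/-- Availability of the checkpoint `j`. -/
def AvK (m j τ : ℕ) : Prop :=
  (τ < j * (4 * m + 7) → τ % 2 = j % 2) ∧ (j * (4 * m + 7) + 2 ≤ τ → τ % 2 ≠ j % 2)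

/-- Availability of the clause leaf `c` in a block, at the offset `x`, depending on the literal of
the variable of the block in the clause. -/
def AvB (m c x : ℕ) : Option Bool → Prop
  | none => x % 2 = 0
  | some true => (x ≤ 2 * c + 5 ∧ x % 2 = 1) ∨ (2 * c + 5 < x ∧ x % 2 = 0)
  | some false => (x ≤ 2 * (m + 2 + c) ∧ x % 2 = 0) ∨ (2 * (m + 2 + c) < x ∧ x % 2 = 1)

/-- Availability of the clause leaf `c`. -/
def AvC (k m : ℕ) (l : ℕ → Option Bool) (c τ : ℕ) : Prop :=
  k ≤ τ / (4 * m + 7) ∨ τ % (4 * m + 7) < 2 ∨ AvB m c (τ % (4 * m + 7)) (l (τ / (4 * m + 7)))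

/-- Availability of the leaves. -/
def Av (k m : ℕ) (lit : ℕ → ℕ → Option Bool) : Lf k m → ℕ → Prop
  | .inl (.inl j), τ => AvK m j τ
  | .inl (.inr i), τ => τ % 2 = i % 2
  | .inr (.inl c), τ => AvC k m (fun j => lit j c) c τ
  | .inr (.inr _), _ => True

/-- Satisfiability: `lit j c` is the polarity of the variable `j` in the clause `c`, if it occurs
there. -/
def Sat (k m : ℕ) (lit : ℕ → ℕ → Option Bool) : Prop :=
  ∃ a : ℕ → Bool, ∀ c < m, ∃ j < k, lit j c = some (a j)

/-- Every edge is available at one of any two consecutive times. -/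
lemma recurrent (k m : ℕ) (lit : ℕ → ℕ → Option Bool) (v : Lf k m) (τ : ℕ) :
    Av k m lit v τ ∨ Av k m lit v (τ + 1) := by
  rcases v with (j | i) | (c | u)
  · simp only [Av, AvK]
    have hT : ((j : ℕ) * (4 * m + 7)) % 2 = j % 2 := by
      rw [Nat.mul_mod]
      have : (4 * m + 7) % 2 = 1 := by omega
      rw [this]
      omega
    omega
  · simp only [Av]
    omega
  · simp only [Av, AvC]
    by_cases hx : τ % (4 * m + 7) + 1 < 4 * m + 7
    · have h1 : (τ + 1) / (4 * m + 7) = τ / (4 * m + 7) := by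
        rw [Nat.succ_div, if_neg]
        · rfl
        · intro hd
          have h2 := Nat.mod_eq_zero_of_dvd hd
          rw [Nat.add_mod, Nat.mod_eq_of_lt (show 1 < 4 * m + 7 by omega),
            Nat.mod_eq_of_lt hx] at h2
          omega
      have h2 : (τ + 1) % (4 * m + 7) = τ % (4 * m + 7) + 1 := by
        rw [Nat.add_mod, Nat.mod_eq_of_lt (show 1 < 4 * m + 7 by omega), Nat.mod_eq_of_lt hx]
      rw [h1, h2]
      rcases lit (τ / (4 * m + 7)) c with _ | _ | _
      · simp only [AvB]; omega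
      · simp only [AvB]; omega
      · simp only [AvB]; omega
    · right; right; left
      have h3 : τ % (4 * m + 7) < 4 * m + 7 := Nat.mod_lt _ (by omega)
      rw [Nat.add_mod, Nat.mod_eq_of_lt (show 1 < 4 * m + 7 by omega)]
      have h4 : τ % (4 * m + 7) + 1 = 4 * m + 7 := by omega
      rw [h4, Nat.mod_self]
      omega
  · left
    trivial

/-- Disjoint intervals in an interval. -/
lemma sum_le_of_disjoint {L : Type*} [DecidableEq L] (s : Finset L) (F c : L → ℕ) (a b : ℕ)
    (h1 : ∀ v ∈ s, a ≤ F v) (h2 : ∀ v ∈ s, F v + c v ≤ b)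
    (hd : ∀ v ∈ s, ∀ w ∈ s, v ≠ w → F v + c v ≤ F w ∨ F w + c w ≤ F v) :
    ∑ v ∈ s, c v ≤ b - a := by
  have h3 : ∑ v ∈ s, c v = (s.biUnion fun v => Finset.Ico (F v) (F v + c v)).card := by
    rw [Finset.card_biUnion]
    · refine Finset.sum_congr rfl fun v _ => ?_
      rw [Nat.card_Ico]
      omega
    · intro v hv w hw hvw
      simp only [Function.onFun]
      rw [Finset.disjoint_left]
      intro x hx hx'
      rw [Finset.mem_Ico] at hx hx'
      rcases hd v hv w hw hvw with h | h <;> omega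
  rw [h3, ← Nat.card_Ico]
  refine Finset.card_le_card ?_
  intro x hx
  rw [Finset.mem_biUnion] at hx
  obtain ⟨v, hv, hx⟩ := hx
  rw [Finset.mem_Ico] at hx ⊢
  have := h1 v hv
  have := h2 v hv
  omega

/-- A tight packing. -/
lemma tight {L : Type*} [Fintype L] [DecidableEq L] (F c : L → ℕ) (hF : Function.Injective F)
    (hF1 : ∀ v, 1 ≤ F v) (hdis : ∀ v w, F v < F w → F v + c v ≤ F w) (z : L)
    (hz : ∀ v, F v ≤ F z) (hsum : F z - 1 ≤ ∑ v ∈ Finset.univ.erase z, c v) (v : L) :
    ∑ w ∈ Finset.univ.filter (fun w => F w < F v), c w = F v - 1 := by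
  have hdis' : ∀ v w, v ≠ w → F v + c v ≤ F w ∨ F w + c w ≤ F v := by
    intro v w hvw
    rcases lt_trichotomy (F v) (F w) with h | h | h
    · exact Or.inl (hdis v w h)
    · exact absurd (hF h) hvw
    · exact Or.inr (hdis w v h)
  have h1 : ∑ w ∈ Finset.univ.filter (fun w => F w < F v), c w ≤ F v - 1 :=
    sum_le_of_disjoint _ F c 1 (F v) (fun w _ => hF1 w)
      (fun w hw => hdis w v (Finset.mem_filter.1 hw).2) (fun v _ w _ h => hdis' v w h)
  have h2 : ∑ w ∈ Finset.univ.filter (fun w => F v ≤ F w ∧ F w < F z), c w ≤ F z - F v :=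
    sum_le_of_disjoint _ F c (F v) (F z) (fun w hw => (Finset.mem_filter.1 hw).2.1)
      (fun w hw => hdis w z (Finset.mem_filter.1 hw).2.2) (fun v _ w _ h => hdis' v w h)
  have h3 : Finset.univ.erase z = Finset.univ.filter (fun w => F w < F v) ∪
      Finset.univ.filter (fun w => F v ≤ F w ∧ F w < F z) := by
    ext w
    simp only [Finset.mem_erase, Finset.mem_univ, and_true, Finset.mem_union, Finset.mem_filter,
      true_and]
    have h4 := hz w
    have h5 := hz v
    constructor
    · intro hw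
      have h6 : F w ≠ F z := fun h => hw (hF h)
      omega
    · intro hw h6
      subst h6
      omega
  have h4 : Disjoint (Finset.univ.filter (fun w => F w < F v))
      (Finset.univ.filter (fun w => F v ≤ F w ∧ F w < F z)) := by
    rw [Finset.disjoint_left]
    intro w hw hw'
    simp only [Finset.mem_filter, Finset.mem_univ, true_and] at hw hw'
    omega
  rw [h3, Finset.sum_union h4] at hsum
  have h5 := hz v
  have h6 := hF1 v
  omega

end Pool.Agent.H84.Star
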