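import Pool.Agent.H84.Star.Sound

/-!
Completeness: a satisfying assignment gives a covering walk.
-/

set_option autoImplicit false

namespace Pool.Agent.H84.Star

/-- Extension of an injective map. -/
lemma exists_extend {α β γ : Type*} [Fintype α] [Fintype β] [Fintype γ] [DecidableEq γ]
    (φ : α → γ) (hφ : Function.Injective φ)
    (hcard : Fintype.card γ = Fintype.card α + Fintype.card β) :
    ∃ e : α ⊕ β → γ, Function.Injective e ∧ ∀ a, e (Sum.inl a) = φ a := by
  classical
  have h1 : (Finset.univ : Finset β).card = ((Finset.univ.image φ)ᶜ).card := by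
    rw [Finset.card_compl, Finset.card_image_of_injective _ hφ, Finset.card_univ,
      Finset.card_univ]
    omega
  let g₀ := Finset.equivOfCardEq h1
  let g : β → {x // x ∈ (Finset.univ.image φ)ᶜ} := fun b => g₀ ⟨b, Finset.mem_univ b⟩
  have hg : Function.Injective g := fun b b' hb => by simpa using g₀.injective hb
  refine ⟨Sum.elim φ fun b => (g b).1, ?_, fun a => rfl⟩
  refine hφ.sumElim (Subtype.val_injective.comp hg) fun a b hab => ?_
  have h2 := (g b).2
  rw [Finset.mem_compl] at h2
  exact h2 (by rw [← hab]; exact Finset.mem_image_of_mem _ (Finset.mem_univ _))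

/-- A satisfying assignment gives a covering walk. -/
theorem cover_of_sat (k m : ℕ) (lit : ℕ → ℕ → Option Bool) (hk : 1 ≤ k) (h : Sat k m lit) :
    ∃ pos, Cover (Av k m lit) (k * (4 * m + 7) + 3) pos := by
  classical
  obtain ⟨a, ha⟩ := h
  choose! j hj hlit using ha
  -- the slots of the clause leaves
  let φ : Fin m → Fin k × Fin (2 * m + 1) := fun c =>
    (⟨j c, hj c c.2⟩, if a (j c) then ⟨c, by omega⟩ else ⟨m + 1 + c, by omega⟩)
  have hφ : Function.Injective φ := by
    intro c c' hcc
    simp only [φ, Prod.mk.injEq, Fin.mk.injEq] at hcc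
    obtain ⟨h1, h2⟩ := hcc
    rw [h1] at h2
    by_cases h3 : a (j c') = true
    · rw [if_pos h3, if_pos h3, Fin.mk.injEq] at h2
      exact Fin.ext h2
    · rw [if_neg h3, if_neg h3, Fin.mk.injEq] at h2
      exact Fin.ext (by omega)
  have hm : m ≤ k * (2 * m + 1) := by nlinarith
  obtain ⟨e, he, hec⟩ := exists_extend (β := Fin (k * (2 * m + 1) - m)) φ hφ (by
    simp only [Fintype.card_prod, Fintype.card_fin]
    omega)
  let blk : Lf k m → ℕ := fun v => match v with
    | .inl (.inl j) => j
    | .inl (.inr i) => i
    | .inr s => (e s).1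
  let off : Lf k m → ℕ := fun v => match v with
    | .inl (.inl _) => 0
    | .inl (.inr i) => if (i : ℕ) < k ∧ a i = false then 4 * m + 4 else 2
    | .inr s => 2 * (e s).2 + if a (e s).1 = true then 5 else 2
  let cst : Lf k m → ℕ := fun v => match v with
    | .inl (.inl _) => 2
    | .inl (.inr _) => 3
    | .inr _ => 2
  have hoffc : ∀ v, off v + cst v ≤ 4 * m + 7 := by
    intro v
    rcases v with (_ | i) | s
    · simp only [off, cst]; omega
    · simp only [off, cst]; split_ifs <;> omega
    · simp only [off, cst]
      have := (e s).2.2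
      split_ifs <;> omega
  have hlast : ∀ v, blk v * (4 * m + 7) + off v + 1 ≤ k * (4 * m + 7) + 3 := by
    intro v
    rcases lt_or_ge (blk v) k with h1 | h1
    · have h2 := hoffc v
      have h3 : (blk v + 1) * (4 * m + 7) ≤ k * (4 * m + 7) := Nat.mul_le_mul_right _ h1
      have h4 : (blk v + 1) * (4 * m + 7) = blk v * (4 * m + 7) + (4 * m + 7) := by ring
      have h5 : 2 ≤ cst v := by
        rcases v with (_ | _) | _ <;> simp only [cst] <;> omega
      omega
    · rcases v with (i | i) | s
      · simp only [blk, off] at h1 ⊢
        have h2 : (i : ℕ) = k := by omega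
        rw [h2]
        omega
      · simp only [blk, off] at h1 ⊢
        have h2 : (i : ℕ) = k := by omega
        rw [h2, if_neg (by omega)]
      · simp only [blk] at h1
        have := (e s).1.2
        omega
  have hsame : ∀ v w, v ≠ w → blk v = blk w →
      off v + cst v ≤ off w ∨ off w + cst w ≤ off v := by
    intro v w hvw hb
    rcases v with (i | i) | s <;> rcases w with (i' | i') | s'
    · simp only [blk] at hb
      exact absurd (by rw [Fin.ext hb]) hvw
    · simp only [off, cst]
      left
      split_ifs <;> omega
    · simp only [off, cst]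
      left
      split_ifs <;> omega
    · simp only [off, cst]
      right
      split_ifs <;> omega
    · simp only [blk] at hb
      exact absurd (by rw [Fin.ext hb]) hvw
    · simp only [blk, off, cst] at hb ⊢
      have h1 := (e s').1.2
      have h2 := (e s').2.2
      rw [hb]
      rcases ha' : a (e s').1 with _ | _
      · right
        simp
        omega
      · left
        simp
    · simp only [off, cst]
      right
      split_ifs <;> omega
    · simp only [blk, off, cst] at hb ⊢
      have h1 := (e s).1.2
      have h2 := (e s).2.2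
      rw [← hb]
      rcases ha' : a (e s).1 with _ | _
      · left
        simp
        omega
      · right
        simp
    · simp only [blk, off, cst] at hb ⊢
      rw [hb]
      have h1 : ((e s).2 : ℕ) ≠ (e s').2 := by
        intro h2
        have h3 : e s = e s' := Prod.ext (Fin.ext hb) (Fin.ext h2)
        exact hvw (by rw [he h3])
      omega
  have hpar : ∀ j : ℕ, (j * (4 * m + 7)) % 2 = j % 2 := by
    intro j
    rw [Nat.mul_mod]
    have : (4 * m + 7) % 2 = 1 := by omega
    rw [this]
    omega
  have hcl : ∀ (c : Fin m) (d : ℕ), d ≤ 1 →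
      Av k m lit (.inr (.inl c)) (blk (.inr (.inl c)) * (4 * m + 7) + off (.inr (.inl c)) + d) := by
    intro c d hd
    have h1 : e (.inl c) = φ c := hec c
    have h2 : blk (.inr (.inl c)) = j c := by
      simp only [blk, h1, φ]
    have h3 : off (.inr (.inl c)) = if a (j c) = true then 2 * (c : ℕ) + 5 else 2 * (m + 2 + c) := by
      simp only [off, h1, φ]
      split_ifs with h4
      · rfl
      · simp only
        ring
    have hd1 : (blk (.inr (.inl c)) * (4 * m + 7) + off (.inr (.inl c)) + d) / (4 * m + 7) =
        j c := by
      rw [h2, h3, Nat.div_eq_iff (by omega)]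
      have := c.2
      split_ifs <;> constructor <;> omega
    have hd2 : (blk (.inr (.inl c)) * (4 * m + 7) + off (.inr (.inl c)) + d) % (4 * m + 7) =
        off (.inr (.inl c)) + d := by
      rw [Nat.add_assoc, Nat.mul_comm, Nat.mul_add_mod, Nat.mod_eq_of_lt]
      rw [h3]
      have := c.2
      split_ifs <;> omega
    simp only [Av, AvC]
    rw [hd1, hd2, h3, hlit c c.2]
    right
    right
    rcases a (j c) with _ | _
    · simp only [AvB]
      simp
      omega
    · simp only [AvB]
      simp
      omega
  refine exists_cover (Av k m lit) _ (fun v => blk v * (4 * m + 7) + off v) cst ?_ ?_ ?_ ?_ hlast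
  · intro v
    rcases v with (_ | _) | _ <;> simp only [cst] <;> omega
  · intro v w hvw
    have h1 := hoffc v
    have h2 := hoffc w
    rcases lt_trichotomy (blk v) (blk w) with h3 | h3 | h3
    · left
      have h4 : (blk v + 1) * (4 * m + 7) ≤ blk w * (4 * m + 7) := Nat.mul_le_mul_right _ h3
      have h5 : (blk v + 1) * (4 * m + 7) = blk v * (4 * m + 7) + (4 * m + 7) := by ring
      omega
    · have h4 := hsame v w hvw h3
      rw [h3]
      omega
    · right
      have h4 : (blk w + 1) * (4 * m + 7) ≤ blk v * (4 * m + 7) := Nat.mul_le_mul_right _ h3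
      have h5 : (blk w + 1) * (4 * m + 7) = blk w * (4 * m + 7) + (4 * m + 7) := by ring
      omega
  · intro v
    rcases v with (i | i) | (c | u)
    · simp only [Av, AvK, blk, off]
      have := hpar i
      omega
    · simp only [Av, blk, off]
      have := hpar i
      split_ifs <;> omega
    · exact hcl c 0 (by omega)
    · trivial
  · intro v
    rcases v with (i | i) | (c | u)
    · simp only [Av, AvK, blk, off, cst]
      have := hpar i
      omega
    · simp only [Av, blk, off, cst]
      have := hpar i
      split_ifs <;> omega
    · exact hcl c 1 le_rfl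
    · trivial

/-- The reduction is correct. -/
theorem cover_iff_sat (k m : ℕ) (lit : ℕ → ℕ → Option Bool) (hk : 1 ≤ k) :
    (∃ pos, Cover (Av k m lit) (k * (4 * m + 7) + 3) pos) ↔ Sat k m lit :=
  ⟨fun ⟨pos, h⟩ => sat_of_cover k m lit hk pos h, cover_of_sat k m lit hk⟩

end Pool.Agent.H84.Star
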