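import Pool.Agent.H84.Star.Red
import Pool.Agent.H79.PT.Int2

/-!
The reduction from the satisfiability of formulas in conjunctive normal form is computable in
polynomial time.
-/

set_option autoImplicit false

namespace Pool.Agent.H84.Star

open Pool.Agent.H79.Cx

/-- Formulas in conjunctive normal form: lists of clauses, which are lists of literals; a literal
is a sign and the number of a variable. -/
abbrev CNF : Type := List (List (Bool × ℕ))

/-- Satisfiability. -/
def SatCNF (φ : CNF) : Prop := ∃ a : ℕ → Bool, ∀ C ∈ φ, ∃ l ∈ C, a l.2 = l.1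

/-- The literal with sign `b` and variable `j` occurs in the clause number `c`. -/
def occ (φ : CNF) (b : Bool) (j c : ℕ) : Bool :=
  !((List.range (φ.getD c []).length).all fun i =>
    !(!(((φ.getD c []).getD i (true, 0)).1 ^^ b) &&
      decide (((φ.getD c []).getD i (true, 0)).2 = j)))

lemma eq_true_of_not_not {A : Bool} (h : ¬ (!A) = true) : A = true := by
  cases A <;> simp_all

lemma occ_iff (φ : CNF) (b : Bool) (j c : ℕ) : occ φ b j c = true ↔ (b, j) ∈ φ.getD c [] := by
  unfold occ
  rw [Bool.not_eq_true', List.all_eq_false]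
  constructor
  · rintro ⟨i, hi, h⟩
    rw [List.mem_range] at hi
    have h0 := eq_true_of_not_not h
    rw [Bool.and_eq_true, decide_eq_true_iff] at h0
    have h1 : (φ.getD c []).getD i (true, 0) = (b, j) := Prod.ext (by simpa using h0.1) h0.2
    rw [← h1, List.getD_eq_getElem _ _ hi]
    exact List.getElem_mem hi
  · intro h
    obtain ⟨i, hi, h1⟩ := List.getElem_of_mem h
    refine ⟨i, List.mem_range.2 hi, ?_⟩
    rw [List.getD_eq_getElem _ _ hi, h1]
    simp

/-- The clause number `c` contains complementary literals. -/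
def taut (φ : CNF) (c : ℕ) : Bool :=
  !((List.range (sz φ)).all fun j => !(occ φ true j c && occ φ false j c))

lemma sz_of_mem {φ : CNF} {b : Bool} {j c : ℕ} (h : (b, j) ∈ φ.getD c []) : j < sz φ := by
  by_cases hc : c < φ.length
  · rw [List.getD_eq_getElem _ _ hc] at h
    have h1 := sz_mem_le h
    have h2 := sz_mem_le (List.getElem_mem hc)
    rw [sz_pair, sz_nat] at h1
    simp only at h1
    omega
  · rw [List.getD_eq_default _ _ (by omega)] at h
    exact absurd h (by simp)

lemma taut_iff (φ : CNF) (c : ℕ) :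
    taut φ c = true ↔ ∃ j, (true, j) ∈ φ.getD c [] ∧ (false, j) ∈ φ.getD c [] := by
  unfold taut
  rw [Bool.not_eq_true', List.all_eq_false]
  constructor
  · rintro ⟨j, -, h⟩
    have h0 := eq_true_of_not_not h
    rw [Bool.and_eq_true, occ_iff, occ_iff] at h0
    exact ⟨j, h0⟩
  · rintro ⟨j, h1, h2⟩
    refine ⟨j, List.mem_range.2 (sz_of_mem h1), ?_⟩
    simp [(occ_iff _ _ _ _).2 h1, (occ_iff _ _ _ _).2 h2]

/-- Positive occurrences in the normalised formula. -/
def lpF (φ : CNF) (j c : ℕ) : Bool :=
  if taut φ c = true then decide (j = sz φ) else occ φ true j c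

/-- Negative occurrences in the normalised formula. -/
def lnF (φ : CNF) (j c : ℕ) : Bool := !taut φ c && occ φ false j c

lemma sat_iff (φ : CNF) :
    Sat (sz φ + 1) φ.length (litOf (lpF φ) (lnF φ)) ↔ SatCNF φ := by
  constructor
  · rintro ⟨a, ha⟩
    refine ⟨a, fun C hC => ?_⟩
    obtain ⟨c, hc, rfl⟩ := List.getElem_of_mem hC
    obtain ⟨j, -, h⟩ := ha c hc
    have hg : φ.getD c [] = φ[c] := List.getD_eq_getElem _ _ hc
    by_cases ht : taut φ c = true
    · obtain ⟨j, h1, h2⟩ := (taut_iff φ c).1 ht
      rw [hg] at h1 h2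
      rcases hj : a j with _ | _
      · exact ⟨_, h2, hj⟩
      · exact ⟨_, h1, hj⟩
    · have h1 : lpF φ j c = occ φ true j c := by
        unfold lpF
        rw [if_neg ht]
      have h2 : lnF φ j c = occ φ false j c := by
        unfold lnF
        rw [Bool.eq_false_iff.2 ht]
        simp
      unfold litOf at h
      rw [h1, h2] at h
      by_cases h3 : occ φ true j c = true
      · rw [if_pos h3, Option.some.injEq] at h
        rw [occ_iff, hg] at h3
        exact ⟨_, h3, h.symm⟩
      · rw [if_neg h3] at h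
        by_cases h4 : occ φ false j c = true
        · rw [if_pos h4, Option.some.injEq] at h
          rw [occ_iff, hg] at h4
          exact ⟨_, h4, h.symm⟩
        · rw [if_neg h4] at h
          cases h
  · rintro ⟨a, ha⟩
    refine ⟨fun j => if j = sz φ then true else a j, fun c hc => ?_⟩
    have hg : φ.getD c [] = φ[c] := List.getD_eq_getElem _ _ hc
    by_cases ht : taut φ c = true
    · refine ⟨sz φ, by omega, ?_⟩
      unfold litOf lpF
      simp [ht]
    · obtain ⟨⟨b, j⟩, hl, hab⟩ := ha _ (List.getElem_mem hc)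
      rw [← hg] at hl
      have hj := sz_of_mem hl
      refine ⟨j, by omega, ?_⟩
      have h1 : lpF φ j c = occ φ true j c := by
        unfold lpF
        rw [if_neg ht]
      have h2 : lnF φ j c = occ φ false j c := by
        unfold lnF
        rw [Bool.eq_false_iff.2 ht]
        simp
      unfold litOf
      have h3 : (if j = sz φ then true else a j) = b := by
        rw [if_neg (by omega)]
        exact hab
      simp only [h1, h2, h3]
      cases b with
      | true => rw [if_pos ((occ_iff _ _ _ _).2 hl)]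
      | false =>
        have h3 : ¬ occ φ true j c = true := by
          intro h3
          rw [occ_iff] at h3
          exact ht ((taut_iff φ c).2 ⟨j, h3, hl⟩)
        rw [if_neg h3, if_pos ((occ_iff _ _ _ _).2 hl)]

section PT

variable {α β : Type} [Enc α] [Enc β]

lemma findFirst_div (n p : ℕ) (hp : 0 < p) :
    findFirst (n + 1) (fun b => decide (n < (b + 1) * p)) = n / p := by
  refine findFirst_spec ?_ ?_ ?_
  · exact Nat.lt_succ_of_le (Nat.div_le_self _ _)
  · rw [decide_eq_true_iff, Nat.mul_comm]
    exact Nat.lt_mul_div_succ n hp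
  · intro i hi
    rw [decide_eq_false_iff_not, not_lt]
    exact (Nat.le_div_iff_mul_le hp).1 hi

@[fun_prop]
theorem natDiv_PT {f g : α → ℕ} (hf : PT f) (hg : PT g) : PT (fun x => f x / g x) := by
  have h : PT (fun x => if g x = 0 then 0 else
      findFirst (f x + 1) (fun b => decide (f x < (b + 1) * g x))) := by
    refine PT.ite' (by fun_prop) (by fun_prop) (PT.findFirst ?_ (by fun_prop))
    fun_prop
  refine cast (congrArg _ (funext fun a => ?_)) h
  rcases Nat.eq_zero_or_pos (g a) with h0 | h0
  · rw [if_pos h0, h0, Nat.div_zero]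
  · rw [if_neg (by omega), findFirst_div _ _ h0]

@[fun_prop]
theorem natMod_PT {f g : α → ℕ} (hf : PT f) (hg : PT g) : PT (fun x => f x % g x) := by
  have h : PT (fun x => f x - g x * (f x / g x)) := by fun_prop
  refine cast (congrArg _ (funext fun a => ?_)) h
  have := Nat.div_add_mod (f a) (g a)
  omega

@[fun_prop]
theorem occ_PT {φ : α → CNF} {b : α → Bool} {j c : α → ℕ} (hφ : PT φ) (hb : PT b) (hj : PT j)
    (hc : PT c) : PT (fun x => occ (φ x) (b x) (j x) (c x)) := by
  unfold occ
  refine PT.not' (PT.all ?_ (by fun_prop))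
  fun_prop

@[fun_prop]
theorem taut_PT {φ : α → CNF} {c : α → ℕ} (hφ : PT φ) (hc : PT c) :
    PT (fun x => taut (φ x) (c x)) := by
  unfold taut
  refine PT.not' (PT.all ?_ (by fun_prop))
  fun_prop

@[fun_prop]
theorem lpF_PT {φ : α → CNF} {j c : α → ℕ} (hφ : PT φ) (hj : PT j) (hc : PT c) :
    PT (fun x => lpF (φ x) (j x) (c x)) := by
  unfold lpF
  fun_prop

@[fun_prop]
theorem lnF_PT {φ : α → CNF} {j c : α → ℕ} (hφ : PT φ) (hj : PT j) (hc : PT c) :
    PT (fun x => lnF (φ x) (j x) (c x)) := by
  unfold lnF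
  fun_prop

@[fun_prop]
theorem avbF_PT {φ : α → CNF} {i τ : α → ℕ} (hφ : PT φ) (hi : PT i) (hτ : PT τ) :
    PT (fun x => avb (sz (φ x) + 1) (φ x).length (lpF (φ x)) (lnF (φ x)) (i x) (τ x)) := by
  unfold avb
  fun_prop

@[fun_prop]
theorem entF_PT {φ : α → CNF} {T τ u v : α → ℕ} (hφ : PT φ) (hT : PT T) (hτ : PT τ) (hu : PT u)
    (hv : PT v) :
    PT (fun x => ent (sz (φ x) + 1) (φ x).length (lpF (φ x)) (lnF (φ x)) (T x) (τ x) (u x)
      (v x)) := by
  unfold ent
  fun_prop

/-- The adjacency matrix of the graph present at time `τ`. -/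
def matF (φ : CNF) (τ : ℕ) : List (List Bool) :=
  tab (nl (sz φ + 1) φ.length + 1) fun u => tab (nl (sz φ + 1) φ.length + 1) fun v =>
    ent (sz φ + 1) φ.length (lpF φ) (lnF φ) (dl (sz φ + 1) φ.length) τ u v

@[fun_prop]
theorem matF_PT {φ : α → CNF} {τ : α → ℕ} (hφ : PT φ) (hτ : PT τ) :
    PT (fun x => matF (φ x) (τ x)) := by
  unfold matF
  refine PT.tab (PT.tab ?_ (by fun_prop)) (by fun_prop)
  fun_prop

/-- The data of the instance. -/
def datF (φ : CNF) :
    List (List Bool) × List Bool × List Bool × List (List (List Bool) × List Bool) :=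
  (matF φ (dl (sz φ + 1) φ.length), [], (dl (sz φ + 1) φ.length).bits,
    tab (dl (sz φ + 1) φ.length + 1) fun τ => (matF φ τ, [true]))

theorem bits_PT {f : α → ℕ} (hf : PT f) : PT (fun x => (f x).bits) := by
  have h : PT (fun x => ((f x : ℤ)).natAbs.bits) := PT.bitsZ (PT.intCast hf)
  exact h

theorem datF_PT : PT datF := by
  unfold datF
  refine PT.pair (by fun_prop) (PT.pair (by fun_prop) (PT.pair (bits_PT (by fun_prop))
    (PT.tab ?_ (by fun_prop))))
  fun_prop

end PT

/-- The instance built from a formula. -/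
def instF (φ : CNF) : Instance := inst (sz φ + 1) φ.length (lpF φ) (lnF φ)

theorem instF_valid (φ : CNF) (Δ : ℕ) (hΔ : 2 ≤ Δ) : (instF φ).Valid Δ :=
  inst_valid _ _ _ _ (by omega) Δ hΔ

theorem instF_coverable (φ : CNF) : (instF φ).Coverable ↔ SatCNF φ :=
  (inst_coverable _ _ _ _ (by omega)).trans (sat_iff φ)

/-! ### Comparison of the encodings -/

theorem encodeBit_eq (b : Bool) : encodeBit b = cd b := by
  cases b <;> rfl

theorem encodeList_eq {β γ : Type} [Enc γ] (f : β → List Bool) (g : β → γ)
    (h : ∀ b, f b = cd (g b)) (l : List β) : encodeList f l = cd (l.map g) := by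
  induction l with
  | nil => rfl
  | cons b l ih =>
    rw [encodeList, h, ih]
    rfl

theorem encodeNat_eq (n : ℕ) : encodeNat n = cd n.bits := by
  unfold encodeNat
  rw [encodeList_eq encodeBit id encodeBit_eq, List.map_id]

theorem encodeGraph_eq {n : ℕ} (G : SimpleGraph (Fin n)) : encodeGraph G = cd (matrixOf G) := by
  unfold encodeGraph
  rw [encodeList_eq (encodeList encodeBit) id (fun l => ?_), List.map_id]
  rw [encodeList_eq encodeBit id encodeBit_eq, List.map_id]
  rfl

theorem tab_eq_ofFn {β : Type} (n : ℕ) (f : ℕ → β) : tab n f = List.ofFn fun i : Fin n => f i := by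
  refine List.ext_getElem (by simp) fun i h1 h2 => ?_
  simp [tab]

theorem matrixOf_gr (φ : CNF) (τ : ℕ) :
    matrixOf (gr (sz φ + 1) φ.length (lpF φ) (lnF φ) τ) = matF φ τ := by
  unfold matrixOf matF
  rw [tab_eq_ofFn]
  congr 1
  funext u
  rw [tab_eq_ofFn]
  congr 1
  funext v
  by_cases h : ent (sz φ + 1) φ.length (lpF φ) (lnF φ) (dl (sz φ + 1) φ.length) τ u v = true
  · rw [h]
    exact @decide_eq_true _ (Classical.propDecidable _) h
  · rw [Bool.eq_false_iff.2 h]
    exact @decide_eq_false _ (Classical.propDecidable _) h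

theorem gr_last (k m : ℕ) (lp ln : ℕ → ℕ → Bool) :
    gr k m lp ln (dl k m) = SimpleGraph.starGraph 0 := by
  ext u v
  rw [SimpleGraph.starGraph_adj]
  change ent k m lp ln (dl k m) (dl k m) u v = true ↔ _
  unfold ent
  refine Fin.cases ?_ (fun i => ?_) u <;> refine Fin.cases ?_ (fun j => ?_) v
  · simp
  · simp [(Fin.succ_ne_zero j).symm]
  · simp [Fin.succ_ne_zero i]
  · simp only [Fin.val_succ]
    rw [if_neg (by omega), decide_eq_false (by omega), Bool.false_and]
    constructor
    · intro h
      exact absurd h (by decide)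
    · rintro ⟨-, h1 | h1⟩
      · exact absurd h1 (Fin.succ_ne_zero i)
      · exact absurd h1 (Fin.succ_ne_zero j)

/-- The data of an instance. -/
noncomputable def rep (I : Instance) :
    List (List Bool) × List Bool × List Bool × List (List (List Bool) × List Bool) :=
  (matrixOf I.G, (I.s : ℕ).bits, I.t.bits, I.sched.map fun x => (matrixOf x.1, x.2.bits))

theorem encodeInstance_eq (I : Instance) : encodeInstance I = cd (rep I) := by
  have h1 : ∀ x : SimpleGraph (Fin I.n) × ℕ,
      encodePair encodeGraph encodeNat x = cd (matrixOf x.1, x.2.bits) := by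
    intro x
    unfold encodePair
    rw [encodeGraph_eq, encodeNat_eq]
    rfl
  change true :: (encodeGraph I.G ++ true :: (encodeNat I.s ++ true :: (encodeNat I.t ++
      encodeList (encodePair encodeGraph encodeNat) I.sched))) = _
  rw [encodeList_eq _ _ h1, encodeGraph_eq, encodeNat_eq, encodeNat_eq]
  rfl

theorem rep_instF (φ : CNF) : rep (instF φ) = datF φ := by
  have h2 : (sch (sz φ + 1) φ.length (lpF φ) (lnF φ)).map (fun x => (matrixOf x.1, x.2.bits)) =
      tab (dl (sz φ + 1) φ.length + 1) fun τ => (matF φ τ, [true]) := by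
    unfold sch tab
    rw [List.map_map]
    refine List.map_congr_left fun τ _ => ?_
    simp only [Function.comp]
    rw [matrixOf_gr, Nat.one_bits]
  have h3 : matrixOf (SimpleGraph.starGraph (0 : Fin (nl (sz φ + 1) φ.length + 1))) =
      matF φ (dl (sz φ + 1) φ.length) := by
    rw [← gr_last _ _ (lpF φ) (lnF φ), matrixOf_gr]
  have h4 : ((0 : Fin (nl (sz φ + 1) φ.length + 1)) : ℕ).bits = [] := by simp
  change (matrixOf (SimpleGraph.starGraph (0 : Fin (nl (sz φ + 1) φ.length + 1))),
    ((0 : Fin (nl (sz φ + 1) φ.length + 1)) : ℕ).bits, (dl (sz φ + 1) φ.length).bits,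
    (sch (sz φ + 1) φ.length (lpF φ) (lnF φ)).map (fun x => (matrixOf x.1, x.2.bits))) = _
  rw [h2, h3, h4]
  rfl

lemma sch_unit (k m : ℕ) (lp ln : ℕ → ℕ → Bool) : ∀ x ∈ sch k m lp ln, x.2 = 1 := by
  intro x hx
  rw [sch, List.mem_map] at hx
  obtain ⟨τ, -, rfl⟩ := hx
  rfl

lemma sch_last (k m : ℕ) (lp ln : ℕ → ℕ → Bool) :
    sch k m lp ln = ((List.range (dl k m)).map fun τ => (gr k m lp ln τ, 1)) ++
      [(SimpleGraph.starGraph 0, 1)] := by
  rw [sch, List.range_succ, List.map_append, ← gr_last _ _ lp ln]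
  rfl

/-- The schedule consists of graphs with duration `1`; the last one, which is present only after
the deadline, is the whole star. -/
theorem instF_sched (φ : CNF) : (∀ x ∈ (instF φ).sched, x.2 = 1) ∧
    ∃ l, (instF φ).sched = l ++ [((instF φ).G, 1)] ∧ l.length = (instF φ).t := by
  refine ⟨sch_unit _ _ _ _, _, sch_last _ _ _ _, ?_⟩
  exact (List.length_map _).trans List.length_range

end Pool.Agent.H84.Star
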