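import Mathlib

/-!
Foremost coverage of a star whose edges are recurrent with bound `Δ`: the decision problem and the
encoding of its inputs by words over `Bool`.
-/

set_option autoImplicit false

namespace Pool.Agent.H84.Star

/-- An input: a graph `G` with vertices `0, ..., n - 1`, a start vertex `s`, a deadline `t` and a
schedule, which is a sequence of graphs with durations. -/
structure Instance where
  /-- the number of vertices -/
  n : ℕ
  /-- the underlying graph -/
  G : SimpleGraph (Fin n)
  /-- the start vertex -/
  s : Fin n
  /-- the deadline -/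
  t : ℕ
  /-- the schedule -/
  sched : List (SimpleGraph (Fin n) × ℕ)

/-- The graph which is present at time `τ`: the first graph of the schedule is present for the
first steps, as many as its duration says, then the second one, and so on. -/
def presentAt {n : ℕ} : List (SimpleGraph (Fin n) × ℕ) → ℕ → SimpleGraph (Fin n)
  | [], _ => ⊥
  | x :: l, τ => if τ < x.2 then x.1 else presentAt l (τ - x.2)

/-- The number of steps covered by a schedule. -/
def lifetime {n : ℕ} (l : List (SimpleGraph (Fin n) × ℕ)) : ℕ := (l.map Prod.snd).sum

/-- Valid inputs: the underlying graph is a star, the schedule consists of subgraphs of it, it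
covers all steps up to the deadline, and every edge is present at least once in any `Δ` consecutive
steps covered by the schedule. -/
structure Instance.Valid (Δ : ℕ) (I : Instance) : Prop where
  star : ∃ c, I.G = SimpleGraph.starGraph c
  sub : ∀ x ∈ I.sched, x.1 ≤ I.G
  deadline : I.t ≤ lifetime I.sched
  recurrent : ∀ u v, I.G.Adj u v → ∀ τ, τ + Δ ≤ lifetime I.sched →
    ∃ τ', τ ≤ τ' ∧ τ' < τ + Δ ∧ (presentAt I.sched τ').Adj u v

/-- The agent starts at `s` at time `0`, in every step it waits or crosses an edge which is present
at that time, and it has visited all vertices by time `t`. -/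
def Instance.Coverable (I : Instance) : Prop :=
  ∃ pos : ℕ → Fin I.n, pos 0 = I.s ∧
    (∀ τ < I.t, pos (τ + 1) = pos τ ∨ (presentAt I.sched τ).Adj (pos τ) (pos (τ + 1))) ∧
    ∀ v, ∃ τ ≤ I.t, pos τ = v

/-! ### Encoding -/

/-- The code of a bit. -/
def encodeBit (b : Bool) : List Bool := if b then [true, false, false] else [false]

/-- The code of a list: every item is preceded by the symbol `true`, and the symbol `false`
marks the end. -/
def encodeList {β : Type} (f : β → List Bool) : List β → List Bool
  | [] => [false]
  | b :: l => true :: (f b ++ encodeList f l)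

/-- The code of a pair. -/
def encodePair {β γ : Type} (f : β → List Bool) (g : γ → List Bool) (x : β × γ) : List Bool :=
  true :: (f x.1 ++ g x.2)

/-- The code of a natural number: the list of its binary digits. -/
def encodeNat (m : ℕ) : List Bool := encodeList encodeBit m.bits

open Classical in
/-- The adjacency matrix of a graph. -/
noncomputable def matrixOf {n : ℕ} (G : SimpleGraph (Fin n)) : List (List Bool) :=
  List.ofFn fun i => List.ofFn fun j => decide (G.Adj i j)

/-- The code of a graph, by its adjacency matrix. -/
noncomputable def encodeGraph {n : ℕ} (G : SimpleGraph (Fin n)) : List Bool :=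
  encodeList (encodeList encodeBit) (matrixOf G)

/-- The input word of an instance. -/
noncomputable def encodeInstance (I : Instance) : List Bool :=
  encodePair encodeGraph (encodePair encodeNat (encodePair encodeNat
    (encodeList (encodePair encodeGraph encodeNat)))) (I.G, (I.s : ℕ), I.t, I.sched)

/-- Foremost coverage of stars with recurrence bound `Δ`, as a language. -/
def DMVP (Δ : ℕ) : Set (List Bool) :=
  {w | ∃ I : Instance, I.Valid Δ ∧ I.Coverable ∧ encodeInstance I = w}

/-! ### The encoding is faithful -/

/-- Self-delimiting codes. -/
def IsPrefixCode {β : Type} (f : β → List Bool) : Prop :=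
  ∀ a b r s, f a ++ r = f b ++ s → a = b ∧ r = s

theorem encodeBit_code : IsPrefixCode encodeBit := by
  intro a b r s h
  cases a <;> cases b <;> simp_all [encodeBit]

theorem encodeList_code {β : Type} {f : β → List Bool} (hf : IsPrefixCode f) :
    IsPrefixCode (encodeList f) := by
  intro a
  induction a with
  | nil =>
    intro b r s h
    cases b with
    | nil => simpa [encodeList] using h
    | cons y b => simp [encodeList] at h
  | cons x a ih =>
    intro b r s h
    cases b with
    | nil => simp [encodeList] at h
    | cons y b =>
      simp only [encodeList, List.cons_append, List.append_assoc, List.cons.injEq, true_and] at h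
      obtain ⟨h1, h2⟩ := hf _ _ _ _ h
      have h3 := ih b r s h2
      exact ⟨by rw [h1, h3.1], h3.2⟩

theorem encodePair_code {β γ : Type} {f : β → List Bool} {g : γ → List Bool}
    (hf : IsPrefixCode f) (hg : IsPrefixCode g) : IsPrefixCode (encodePair f g) := by
  intro a b r s h
  simp only [encodePair, List.cons_append, List.append_assoc, List.cons.injEq, true_and] at h
  obtain ⟨h1, h2⟩ := hf _ _ _ _ h
  obtain ⟨h3, h4⟩ := hg _ _ _ _ h2
  exact ⟨Prod.ext h1 h3, h4⟩

theorem encodeNat_code : IsPrefixCode encodeNat := by
  intro a b r s h
  obtain ⟨h1, h2⟩ := encodeList_code encodeBit_code _ _ _ _ h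
  refine ⟨?_, h2⟩
  have h3 : Nat.digits 2 a = Nat.digits 2 b := by
    rw [Nat.digits_two_eq_bits, Nat.digits_two_eq_bits, h1]
  rw [← Nat.ofDigits_digits 2 a, h3, Nat.ofDigits_digits]

theorem matrixOf_injective {n : ℕ} : Function.Injective (matrixOf (n := n)) := by
  classical
  intro G H h
  have h1 := List.ofFn_injective h
  ext i j
  have h2 := congrFun (List.ofFn_injective (congrFun h1 i)) j
  rw [decide_eq_decide] at h2
  exact h2

theorem encodeGraph_code {n : ℕ} : IsPrefixCode (encodeGraph (n := n)) := by
  intro a b r s h
  obtain ⟨h1, h2⟩ := encodeList_code (encodeList_code encodeBit_code) _ _ _ _ h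
  exact ⟨matrixOf_injective h1, h2⟩

/-- Different inputs have different input words. -/
theorem encodeInstance_injective : Function.Injective encodeInstance := by
  intro I J h
  obtain ⟨n, G, s, t, l⟩ := I
  obtain ⟨n', G', s', t', l'⟩ := J
  simp only [encodeInstance, encodePair, encodeGraph, List.cons.injEq, true_and] at h
  obtain ⟨h1, -⟩ := encodeList_code (encodeList_code encodeBit_code) _ _ _ _ h
  have hn : n = n' := by
    have := congrArg List.length h1
    simpa [matrixOf] using this
  subst hn
  obtain ⟨h2, h3⟩ := encodeGraph_code _ _ _ _ h
  rw [List.cons.injEq] at h3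
  obtain ⟨h4, h5⟩ := encodeNat_code _ _ _ _ h3.2
  rw [List.cons.injEq] at h5
  obtain ⟨h6, h7⟩ := encodeNat_code _ _ _ _ h5.2
  obtain ⟨h8, -⟩ := encodeList_code (encodePair_code encodeGraph_code encodeNat_code)
    l l' [] [] (by simpa using h7)
  rw [h2, Fin.ext h4, h6, h8]

/-- An instance is in the language if and only if it is valid and coverable. -/
theorem encodeInstance_mem_DMVP {Δ : ℕ} {I : Instance} :
    encodeInstance I ∈ DMVP Δ ↔ I.Valid Δ ∧ I.Coverable := by
  constructor
  · rintro ⟨J, h1, h2, h3⟩
    rw [← encodeInstance_injective h3]
    exact ⟨h1, h2⟩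
  · rintro ⟨h1, h2⟩
    exact ⟨I, h1, h2, rfl⟩

end Pool.Agent.H84.Star
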