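import Pool.Agent.H84.Star.Compl
import Pool.Agent.H84.Star.Problem

/-!
The instance of the coverage problem built from a table of literals.
-/

set_option autoImplicit false

namespace Pool.Agent.H84.Star

/-- The deadline. -/
abbrev dl (k m : ℕ) : ℕ := k * (4 * m + 7) + 3

/-- The number of leaves. -/
abbrev nl (k m : ℕ) : ℕ := k * (2 * m + 3) + 2

/-- Transport of covers along an equivalence. -/
lemma cover_congr {L L' : Type*} (e : L ≃ L') (p : L → ℕ → Prop) (p' : L' → ℕ → Prop) (t : ℕ)
    (h : ∀ v, ∀ τ < t, p' (e v) τ ↔ p v τ) :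
    (∃ pos, Cover p t pos) ↔ ∃ pos, Cover p' t pos := by
  constructor
  · rintro ⟨pos, h1⟩
    refine ⟨fun τ => (pos τ).map e, ⟨by simp [h1.start], ?_, ?_⟩⟩
    · intro τ hτ
      rcases h1.step τ hτ with h2 | ⟨v, h2, ⟨h3, h4⟩ | ⟨h3, h4⟩⟩
      · left; simp [h2]
      · right; exact ⟨e v, (h v τ hτ).2 h2, Or.inl (by simp [h3, h4])⟩
      · right; exact ⟨e v, (h v τ hτ).2 h2, Or.inr (by simp [h3, h4])⟩
    · intro v
      obtain ⟨τ, h2, h3⟩ := h1.all (e.symm v)
      exact ⟨τ, h2, by simp [h3]⟩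
  · rintro ⟨pos, h1⟩
    refine ⟨fun τ => (pos τ).map e.symm, ⟨by simp [h1.start], ?_, ?_⟩⟩
    · intro τ hτ
      rcases h1.step τ hτ with h2 | ⟨v, h2, ⟨h3, h4⟩ | ⟨h3, h4⟩⟩
      · left; simp [h2]
      · right
        exact ⟨e.symm v, (h (e.symm v) τ hτ).1 (by simpa using h2), Or.inl (by simp [h3, h4])⟩
      · right
        exact ⟨e.symm v, (h (e.symm v) τ hτ).1 (by simpa using h2), Or.inr (by simp [h3, h4])⟩
    · intro v
      obtain ⟨τ, h2, h3⟩ := h1.all (e v)
      exact ⟨τ, h2, by simp [h3]⟩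

/-- The table of literals given by the tables of positive and negative occurrences. -/
def litOf (lp ln : ℕ → ℕ → Bool) (j c : ℕ) : Option Bool :=
  if lp j c = true then some true else if ln j c = true then some false else none

/-- Availability of the leaf number `i` at time `τ`. -/
def avb (k m : ℕ) (lp ln : ℕ → ℕ → Bool) (i τ : ℕ) : Bool :=
  if i < k + 1 then
    (decide (i * (4 * m + 7) ≤ τ) || decide (τ % 2 = i % 2)) &&
      (decide (τ < i * (4 * m + 7) + 2) || !decide (τ % 2 = i % 2))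
  else if i < 2 * (k + 1) then decide (τ % 2 = (i - (k + 1)) % 2)
  else if i < 2 * (k + 1) + m then
    decide (k ≤ τ / (4 * m + 7)) || (decide (τ % (4 * m + 7) < 2) ||
      (if lp (τ / (4 * m + 7)) (i - 2 * (k + 1)) = true then
        (decide (τ % (4 * m + 7) ≤ 2 * (i - 2 * (k + 1)) + 5) &&
          decide (τ % (4 * m + 7) % 2 = 1)) ||
        (decide (2 * (i - 2 * (k + 1)) + 5 < τ % (4 * m + 7)) &&
          decide (τ % (4 * m + 7) % 2 = 0))
      else if ln (τ / (4 * m + 7)) (i - 2 * (k + 1)) = true then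
        (decide (τ % (4 * m + 7) ≤ 2 * (m + 2 + (i - 2 * (k + 1)))) &&
          decide (τ % (4 * m + 7) % 2 = 0)) ||
        (decide (2 * (m + 2 + (i - 2 * (k + 1))) < τ % (4 * m + 7)) &&
          decide (τ % (4 * m + 7) % 2 = 1))
      else decide (τ % (4 * m + 7) % 2 = 0)))
  else true

/-- The number of a leaf. -/
def idx (k m : ℕ) : Lf k m → ℕ
  | .inl (.inl j) => j
  | .inl (.inr i) => k + 1 + i
  | .inr (.inl c) => 2 * (k + 1) + c
  | .inr (.inr u) => 2 * (k + 1) + m + u

lemma avb_idx (k m : ℕ) (lp ln : ℕ → ℕ → Bool) (v : Lf k m) (τ : ℕ) :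
    avb k m lp ln (idx k m v) τ = true ↔ Av k m (litOf lp ln) v τ := by
  rcases v with (j | i) | (c | u)
  · change avb k m lp ln (j : ℕ) τ = true ↔ AvK m j τ
    unfold avb AvK
    rw [if_pos (by omega)]
    simp only [Bool.and_eq_true, Bool.or_eq_true, decide_eq_true_eq, Bool.not_eq_true',
      decide_eq_false_iff_not]
    constructor
    · rintro ⟨h1, h2⟩
      constructor <;> intro h <;> omega
    · rintro ⟨h1, h2⟩
      constructor <;> omega
  · change avb k m lp ln (k + 1 + (i : ℕ)) τ = true ↔ τ % 2 = i % 2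
    unfold avb
    rw [if_neg (by omega), if_pos (by omega), decide_eq_true_eq]
    have : k + 1 + (i : ℕ) - (k + 1) = i := by omega
    rw [this]
  · change avb k m lp ln (2 * (k + 1) + (c : ℕ)) τ = true ↔
      AvC k m (fun j => litOf lp ln j c) c τ
    unfold avb AvC
    rw [if_neg (by omega), if_neg (by omega), if_pos (by omega)]
    have : 2 * (k + 1) + (c : ℕ) - 2 * (k + 1) = c := by omega
    rw [this]
    unfold litOf
    by_cases h1 : lp (τ / (4 * m + 7)) c = true
    · simp only [if_pos h1, AvB, Bool.or_eq_true, Bool.and_eq_true, decide_eq_true_eq]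
    · by_cases h2 : ln (τ / (4 * m + 7)) c = true
      · simp only [if_neg h1, if_pos h2, AvB, Bool.or_eq_true, Bool.and_eq_true,
          decide_eq_true_eq]
      · simp only [if_neg h1, if_neg h2, AvB, Bool.or_eq_true, decide_eq_true_eq]
  · change avb k m lp ln (2 * (k + 1) + m + (u : ℕ)) τ = true ↔ True
    unfold avb
    rw [if_neg (by omega), if_neg (by omega), if_neg (by omega)]
    simp

lemma idx_lt (k m : ℕ) (hk : 1 ≤ k) (v : Lf k m) : idx k m v < k * (2 * m + 3) + 2 := by
  have h1 : m ≤ k * (2 * m + 1) := by nlinarith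
  have h2 : k * (2 * m + 3) = k * (2 * m + 1) + 2 * k := by ring
  rcases v with (j | i) | (c | u)
  · have := j.2
    simp only [idx]
    omega
  · have := i.2
    simp only [idx]
    omega
  · have := c.2
    simp only [idx]
    omega
  · have := u.2
    simp only [idx]
    omega

lemma idx_injective (k m : ℕ) : Function.Injective (idx k m) := by
  intro v w h
  rcases v with (j | i) | (c | u) <;> rcases w with (j' | i') | (c' | u') <;>
    simp only [idx] at h <;>
    first
    | (congr 2; exact Fin.ext (by omega))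
    | (have := j.2; omega)
    | (have := j'.2; omega)
    | (have := i.2; omega)
    | (have := i'.2; omega)
    | (have := c.2; omega)
    | (have := c'.2; omega)

/-- The numbering of the leaves. -/
noncomputable def numbering (k m : ℕ) (hk : 1 ≤ k) : Lf k m ≃ Fin (nl k m) :=
  Equiv.ofBijective (fun v => ⟨idx k m v, idx_lt k m hk v⟩) (by
    rw [Fintype.bijective_iff_injective_and_card]
    refine ⟨fun v w h => idx_injective k m (by simpa using h), ?_⟩
    rw [card_Lf k m hk, Fintype.card_fin])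

lemma numbering_val (k m : ℕ) (hk : 1 ≤ k) (v : Lf k m) :
    (numbering k m hk v : ℕ) = idx k m v := rfl

/-- Presence of the edge between the vertices `u` and `v` at time `τ`; the centre is the vertex `0`
and the leaf number `i` is the vertex `i + 1`. From the time `T` on all edges are present. -/
def ent (k m : ℕ) (lp ln : ℕ → ℕ → Bool) (T τ u v : ℕ) : Bool :=
  if u = 0 then !decide (v = 0) && (decide (T ≤ τ) || avb k m lp ln (v - 1) τ)
  else decide (v = 0) && (decide (T ≤ τ) || avb k m lp ln (u - 1) τ)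

lemma ent_comm (k m : ℕ) (lp ln : ℕ → ℕ → Bool) (T τ u v : ℕ) :
    ent k m lp ln T τ u v = ent k m lp ln T τ v u := by
  unfold ent
  by_cases h1 : u = 0 <;> by_cases h2 : v = 0 <;> simp [h1, h2]

/-- The graph present at time `τ`. -/
def gr (k m : ℕ) (lp ln : ℕ → ℕ → Bool) (τ : ℕ) : SimpleGraph (Fin (nl k m + 1)) where
  Adj u v := ent k m lp ln (dl k m) τ u v = true
  symm := ⟨fun u v h => by rw [ent_comm]; exact h⟩
  loopless := ⟨fun u h => by
    unfold ent at h
    by_cases h1 : (u : ℕ) = 0 <;> simp [h1] at h⟩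

/-- The schedule. -/
def sch (k m : ℕ) (lp ln : ℕ → ℕ → Bool) : List (SimpleGraph (Fin (nl k m + 1)) × ℕ) :=
  (List.range (dl k m + 1)).map fun τ => (gr k m lp ln τ, 1)

/-- The instance. -/
def inst (k m : ℕ) (lp ln : ℕ → ℕ → Bool) : Instance where
  n := nl k m + 1
  G := SimpleGraph.starGraph 0
  s := 0
  t := dl k m
  sched := sch k m lp ln

lemma presentAt_range {n : ℕ} (N : ℕ) (g : ℕ → SimpleGraph (Fin n)) (τ : ℕ) (hτ : τ < N) :
    presentAt ((List.range N).map fun τ => (g τ, 1)) τ = g τ := by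
  induction N generalizing g τ with
  | zero => omega
  | succ N ih =>
    rw [List.range_succ_eq_map, List.map_cons, List.map_map]
    unfold presentAt
    by_cases h : τ = 0
    · subst h
      simp
    · rw [if_neg (by simp; omega)]
      have h1 := ih (fun τ => g (τ + 1)) (τ - 1) (by omega)
      have h2 : τ - 1 + 1 = τ := by omega
      rw [h2] at h1
      exact h1

lemma lifetime_range {n : ℕ} (N : ℕ) (g : ℕ → SimpleGraph (Fin n)) :
    lifetime ((List.range N).map fun τ => (g τ, 1)) = N := by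
  unfold lifetime
  rw [List.map_map]
  simp [Function.comp_def]

lemma sch_sub (k m : ℕ) (lp ln : ℕ → ℕ → Bool) :
    ∀ x ∈ sch k m lp ln, x.1 ≤ SimpleGraph.starGraph (0 : Fin (nl k m + 1)) := by
  intro x hx
  rw [sch, List.mem_map] at hx
  obtain ⟨τ, -, rfl⟩ := hx
  intro u v huv
  change ent k m lp ln (dl k m) τ u v = true at huv
  rw [SimpleGraph.starGraph_adj]
  unfold ent at huv
  by_cases h1 : (u : ℕ) = 0
  · rw [if_pos h1] at huv
    simp only [Bool.and_eq_true, Bool.not_eq_true', decide_eq_false_iff_not] at huv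
    refine ⟨fun h => huv.1 (by rw [← h]; exact h1), Or.inl (Fin.ext h1)⟩
  · rw [if_neg h1] at huv
    simp only [Bool.and_eq_true, decide_eq_true_eq] at huv
    refine ⟨fun h => h1 (by rw [h]; exact huv.1), Or.inr (Fin.ext huv.1)⟩

lemma lifetime_sch (k m : ℕ) (lp ln : ℕ → ℕ → Bool) : lifetime (sch k m lp ln) = dl k m + 1 :=
  lifetime_range _ _

lemma presentAt_sch (k m : ℕ) (lp ln : ℕ → ℕ → Bool) (τ : ℕ) (hτ : τ ≤ dl k m) :
    presentAt (sch k m lp ln) τ = gr k m lp ln τ :=
  presentAt_range _ _ τ (by omega)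

lemma sch_recurrent (k m : ℕ) (lp ln : ℕ → ℕ → Bool) (hk : 1 ≤ k) (u v : Fin (nl k m + 1))
    (huv : (SimpleGraph.starGraph 0).Adj u v) (τ : ℕ) :
    ent k m lp ln (dl k m) τ u v = true ∨ ent k m lp ln (dl k m) (τ + 1) u v = true := by
  have hav : ∀ i < nl k m, ∀ τ, avb k m lp ln i τ = true ∨ avb k m lp ln i (τ + 1) = true := by
    intro i hi τ
    obtain ⟨v, hv⟩ := (numbering k m hk).surjective ⟨i, hi⟩
    have h1 : idx k m v = i := by
      rw [← numbering_val k m hk, hv]
    have h2 := recurrent k m (litOf lp ln) v τ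
    rw [← avb_idx, ← avb_idx, h1] at h2
    exact h2
  rw [SimpleGraph.starGraph_adj] at huv
  unfold ent
  rcases huv.2 with h1 | h1
  · have h2 : (u : ℕ) = 0 := by rw [h1]; rfl
    have h3 : (v : ℕ) ≠ 0 := fun h => huv.1 (by rw [h1]; exact (Fin.ext h).symm)
    have h4 := v.2
    rcases hav (v - 1) (by omega) τ with h | h
    · left; simp [h2, h3, h]
    · right; simp [h2, h3, h]
  · have h2 : (v : ℕ) = 0 := by rw [h1]; rfl
    have h3 : (u : ℕ) ≠ 0 := fun h => huv.1 (by rw [h1]; exact Fin.ext h)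
    have h4 := u.2
    rcases hav (u - 1) (by omega) τ with h | h
    · left; simp [h2, h3, h]
    · right; simp [h2, h3, h]

lemma inst_valid (k m : ℕ) (lp ln : ℕ → ℕ → Bool) (hk : 1 ≤ k) (Δ : ℕ) (hΔ : 2 ≤ Δ) :
    (inst k m lp ln).Valid Δ := by
  refine ⟨⟨(0 : Fin (nl k m + 1)), rfl⟩, sch_sub k m lp ln, ?_, ?_⟩
  · change dl k m ≤ lifetime (sch k m lp ln)
    rw [lifetime_sch]
    omega
  · intro u v huv τ hτ
    change τ + Δ ≤ lifetime (sch k m lp ln) at hτ
    rw [lifetime_sch] at hτ
    rcases sch_recurrent k m lp ln hk u v huv τ with h | h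
    · refine ⟨τ, le_rfl, by omega, ?_⟩
      change (presentAt (sch k m lp ln) τ).Adj u v
      rw [presentAt_sch k m lp ln τ (by omega)]
      exact h
    · refine ⟨τ + 1, by omega, by omega, ?_⟩
      change (presentAt (sch k m lp ln) (τ + 1)).Adj u v
      rw [presentAt_sch k m lp ln (τ + 1) (by omega)]
      exact h

/-- Walks on a star with centre `0` in terms of covers. -/
lemma coverable_aux (N T : ℕ) (p : Fin N → ℕ → Prop) (g : ℕ → SimpleGraph (Fin (N + 1)))
    (hg : ∀ τ < T, ∀ u v, (g τ).Adj u v ↔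
      (∃ i : Fin N, p i τ ∧ ((u = 0 ∧ v = i.succ) ∨ (u = i.succ ∧ v = 0)))) :
    (∃ pos : ℕ → Fin (N + 1), pos 0 = 0 ∧
      (∀ τ < T, pos (τ + 1) = pos τ ∨ (g τ).Adj (pos τ) (pos (τ + 1))) ∧
      ∀ v, ∃ τ ≤ T, pos τ = v) ↔ ∃ pos, Cover p T pos := by
  constructor
  · rintro ⟨pos, h1, h2, h3⟩
    refine ⟨fun τ => finSuccEquiv N (pos τ), ⟨?_, ?_, ?_⟩⟩
    · simp only [h1]
      exact finSuccEquiv_zero
    · intro τ hτ
      rcases h2 τ hτ with h4 | h4
      · left
        simp only [h4]
      · right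
        rw [hg τ hτ] at h4
        obtain ⟨i, h5, ⟨h6, h7⟩ | ⟨h6, h7⟩⟩ := h4
        · refine ⟨i, h5, Or.inl ⟨?_, ?_⟩⟩
          · simp only [h6]
            exact finSuccEquiv_zero
          · simp only [h7]
            exact finSuccEquiv_succ i
        · refine ⟨i, h5, Or.inr ⟨?_, ?_⟩⟩
          · simp only [h6]
            exact finSuccEquiv_succ i
          · simp only [h7]
            exact finSuccEquiv_zero
    · intro v
      obtain ⟨τ, h4, h5⟩ := h3 v.succ
      exact ⟨τ, h4, by simp only [h5]; exact finSuccEquiv_succ v⟩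
  · rintro ⟨pos, h⟩
    refine ⟨fun τ => (finSuccEquiv N).symm (pos τ), ?_, ?_, ?_⟩
    · simp only [h.start]
      exact finSuccEquiv_symm_none
    · intro τ hτ
      rcases h.step τ hτ with h4 | ⟨v, h4, ⟨h5, h6⟩ | ⟨h5, h6⟩⟩
      · left
        simp only [h4]
      · right
        rw [hg τ hτ]
        refine ⟨v, h4, Or.inl ⟨?_, ?_⟩⟩
        · simp only [h5]
          exact finSuccEquiv_symm_none
        · simp only [h6]
          exact finSuccEquiv_symm_some v
      · right
        rw [hg τ hτ]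
        refine ⟨v, h4, Or.inr ⟨?_, ?_⟩⟩
        · simp only [h5]
          exact finSuccEquiv_symm_some v
        · simp only [h6]
          exact finSuccEquiv_symm_none
    · intro v
      refine Fin.cases ?_ (fun i => ?_) v
      · exact ⟨0, by omega, by simp only [h.start]; exact finSuccEquiv_symm_none⟩
      · obtain ⟨τ, h4, h5⟩ := h.all i
        exact ⟨τ, h4, by simp only [h5]; exact finSuccEquiv_symm_some i⟩

lemma ent_iff (k m : ℕ) (lp ln : ℕ → ℕ → Bool) (τ : ℕ) (hτ : τ < dl k m)
    (u v : Fin (nl k m + 1)) :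
    ent k m lp ln (dl k m) τ u v = true ↔
      ∃ i : Fin (nl k m), avb k m lp ln i τ = true ∧
        ((u = 0 ∧ v = i.succ) ∨ (u = i.succ ∧ v = 0)) := by
  have hτ' : ¬ dl k m ≤ τ := by omega
  unfold ent
  refine Fin.cases ?_ (fun i => ?_) u <;> refine Fin.cases ?_ (fun j => ?_) v
  · simp only [Fin.val_zero, if_true, decide_true, Bool.not_true, Bool.false_and]
    constructor
    · intro h
      exact absurd h (by decide)
    · rintro ⟨i, -, h1 | h1⟩
      · exact absurd h1.2.symm (Fin.succ_ne_zero i)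
      · exact absurd h1.1.symm (Fin.succ_ne_zero i)
  · simp only [Fin.val_zero, if_true, Fin.val_succ, Nat.add_sub_cancel, Bool.and_eq_true,
      Bool.or_eq_true, decide_eq_true_eq, true_and]
    constructor
    · rintro ⟨-, h | h⟩
      · exact absurd h hτ'
      · exact ⟨j, h, Or.inl rfl⟩
    · rintro ⟨i, h, h1 | h1⟩
      · rw [Fin.succ_inj] at h1
        exact ⟨by simp, Or.inr (h1 ▸ h)⟩
      · exact absurd h1.2 (Fin.succ_ne_zero j)
  · simp only [Fin.val_zero, Fin.val_succ, Nat.add_sub_cancel]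
    rw [if_neg (by omega)]
    simp only [decide_true, Bool.true_and, Bool.or_eq_true, decide_eq_true_eq]
    constructor
    · rintro (h | h)
      · exact absurd h hτ'
      · exact ⟨i, h, Or.inr ⟨rfl, trivial⟩⟩
    · rintro ⟨j, h, h1 | h1⟩
      · exact absurd h1.1 (Fin.succ_ne_zero i)
      · have h2 := Fin.succ_inj.1 h1.1
        exact Or.inr (h2 ▸ h)
  · simp only [Fin.val_succ]
    rw [if_neg (by omega), decide_eq_false (by omega), Bool.false_and]
    constructor
    · intro h
      exact absurd h (by decide)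
    · rintro ⟨i', -, h1 | h1⟩
      · exact absurd h1.1 (Fin.succ_ne_zero i)
      · exact absurd h1.2 (Fin.succ_ne_zero j)

lemma inst_coverable (k m : ℕ) (lp ln : ℕ → ℕ → Bool) (hk : 1 ≤ k) :
    (inst k m lp ln).Coverable ↔ Sat k m (litOf lp ln) := by
  rw [← cover_iff_sat k m _ hk,
    cover_congr (numbering k m hk) (Av k m (litOf lp ln))
      (fun i τ => avb k m lp ln i τ = true) _ (fun v τ _ => by
        rw [numbering_val]
        exact avb_idx k m lp ln v τ)]
  refine coverable_aux (nl k m) (dl k m) (fun i τ => avb k m lp ln i τ = true)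
    (fun τ => presentAt (sch k m lp ln) τ) fun τ hτ u v => ?_
  have hpr : presentAt (sch k m lp ln) τ = gr k m lp ln τ :=
    presentAt_range _ _ τ (by omega)
  simp only [hpr]
  exact ent_iff k m lp ln τ hτ u v

end Pool.Agent.H84.Star
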