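import Pool.Agent.H84.Star.Comb

/-!
Soundness: a covering walk gives a satisfying assignment.
-/

set_option autoImplicit false

namespace Pool.Agent.H84.Star

/-- A waste leaf. -/
def IsW {k m : ℕ} : Lf k m → Prop
  | .inl (.inr _) => True
  | _ => False

instance {k m : ℕ} (v : Lf k m) : Decidable (IsW v) := by
  rcases v with (_ | _) | (_ | _) <;> (unfold IsW; infer_instance)

lemma card_isW (k m : ℕ) : (Finset.univ.filter fun v : Lf k m => IsW v).card = k + 1 := by
  have h1 : (Finset.univ.filter fun v : Lf k m => IsW v) =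
      (Finset.univ : Finset (Fin (k + 1))).image fun i => (Sum.inl (Sum.inr i) : Lf k m) := by
    ext v
    simp only [Finset.mem_filter, Finset.mem_univ, true_and, Finset.mem_image]
    rcases v with (_ | i) | (_ | _) <;> simp [IsW]
  rw [h1, Finset.card_image_of_injective _ (fun a b h => by simpa using h), Finset.card_univ,
    Fintype.card_fin]

lemma card_Lf (k m : ℕ) (hk : 1 ≤ k) : Fintype.card (Lf k m) = k * (2 * m + 3) + 2 := by
  simp only [Lf, Fintype.card_sum, Fintype.card_fin]
  have h1 : m ≤ k * (2 * m + 1) := by nlinarith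
  have h2 : k * (2 * m + 3) = k * (2 * m + 1) + 2 * k := by ring
  omega

/-- The structure of a cover. -/
lemma structure_of_cover (k m : ℕ) (lit : ℕ → ℕ → Option Bool) (hk : 1 ≤ k)
    (pos : ℕ → Option (Lf k m)) (h : Cover (Av k m lit) (k * (4 * m + 7) + 3) pos) :
    ∃ F : Lf k m → ℕ, Function.Injective F ∧ (∀ v, 1 ≤ F v) ∧
      (∀ v w, F v < F w → F v + 2 ≤ F w) ∧ (∀ v, Av k m lit v (F v - 1)) ∧
      (∀ v, ¬ IsW v → Av k m lit v (F v)) ∧
      (∃ z, IsW z ∧ F z = k * (4 * m + 7) + 3 ∧ ∀ v, F v ≤ F z) ∧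
      ∀ v, ∃ n, F v = 2 * n + (Finset.univ.filter fun w => IsW w ∧ F w < F v).card + 1 := by
  classical
  obtain ⟨F, hinj, hF, hp, hgap⟩ := exists_visits _ _ _ h
  set c : Lf k m → ℕ := fun v => if Av k m lit v (F v) then 2 else 3 with hc
  have hdis : ∀ v w, F v < F w → F v + c v ≤ F w := by
    intro v w hvw
    simp only [hc]
    split_ifs with h1
    · exact (hgap v w hvw).1
    · exact (hgap v w hvw).2 h1
  have hdis' : ∀ v w, v ≠ w → F v + c v ≤ F w ∨ F w + c w ≤ F v := by
    intro v w hvw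
    rcases lt_trichotomy (F v) (F w) with h | h | h
    · exact Or.inl (hdis v w h)
    · exact absurd (hinj h) hvw
    · exact Or.inr (hdis w v h)
  have hne : Nonempty (Lf k m) := ⟨.inl (.inl 0)⟩
  obtain ⟨z, -, hz⟩ := Finset.exists_max_image (Finset.univ : Finset (Lf k m)) F
    Finset.univ_nonempty
  have hz' : ∀ v, F v ≤ F z := fun v => hz v (Finset.mem_univ v)
  have hzlt : ∀ v, v ≠ z → F v < F z := fun v hv =>
    lt_of_le_of_ne (hz' v) fun h => hv (hinj h)
  set E : Finset (Lf k m) := (Finset.univ.erase z).filter fun v => ¬ Av k m lit v (F v) with hE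
  set W : Finset (Lf k m) := Finset.univ.filter fun v => IsW v with hW
  have hWna : ∀ v, IsW v → ¬ Av k m lit v (F v) := by
    intro v hv
    rcases v with (_ | i) | (_ | _)
    · exact hv.elim
    · have h1 := hp (.inl (.inr i))
      have h2 := (hF (.inl (.inr i))).1
      simp only [Av] at h1 ⊢
      omega
    · exact hv.elim
    · exact hv.elim
  have hsum : ∑ v ∈ Finset.univ.erase z, c v = 2 * (k * (2 * m + 3) + 1) + E.card := by
    have h1 : ∀ v, c v = 2 + if ¬ Av k m lit v (F v) then 1 else 0 := by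
      intro v
      simp only [hc]
      by_cases h2 : Av k m lit v (F v)
      · rw [if_pos h2, if_neg (not_not.2 h2)]
      · rw [if_neg h2, if_pos h2]
    rw [Finset.sum_congr rfl fun v _ => h1 v, Finset.sum_add_distrib, Finset.sum_const,
      Finset.card_erase_of_mem (Finset.mem_univ _), Finset.card_univ, card_Lf k m hk,
      ← Finset.card_filter, smul_eq_mul, ← hE]
    have : k * (2 * m + 3) + 2 - 1 = k * (2 * m + 3) + 1 := by omega
    rw [this]
    ring
  have hle : ∑ v ∈ Finset.univ.erase z, c v ≤ F z - 1 :=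
    sum_le_of_disjoint _ F c 1 (F z) (fun v _ => (hF v).1)
      (fun v hv => hdis v z (hzlt v (Finset.mem_erase.1 hv).1)) (fun v _ w _ h => hdis' v w h)
  have hT : 2 * (k * (2 * m + 3) + 1) + k = k * (4 * m + 7) + 2 := by ring
  have hFz := (hF z).2
  have hWE : W.erase z ⊆ E := by
    intro v hv
    rw [Finset.mem_erase, hW, Finset.mem_filter] at hv
    rw [hE, Finset.mem_filter, Finset.mem_erase]
    exact ⟨⟨hv.1, Finset.mem_univ _⟩, hWna v hv.2.2⟩
  have hWcard : W.card = k + 1 := card_isW k m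
  have hEle : E.card ≤ k := by omega
  have hzW : z ∈ W := by
    by_contra hcon
    rw [Finset.erase_eq_of_notMem hcon] at hWE
    have := Finset.card_le_card hWE
    omega
  have hEeq : E = W.erase z := by
    refine (Finset.eq_of_subset_of_card_le hWE ?_).symm
    rw [Finset.card_erase_of_mem hzW]
    omega
  have hEcard : E.card = k := by
    rw [hEeq, Finset.card_erase_of_mem hzW]
    omega
  have hzW' : IsW z := by
    rw [hW, Finset.mem_filter] at hzW
    exact hzW.2
  have hnW : ∀ v, ¬ IsW v → Av k m lit v (F v) := by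
    intro v hv
    by_contra hcon
    have h1 : v ∈ E := by
      rw [hE, Finset.mem_filter, Finset.mem_erase]
      exact ⟨⟨fun h => hv (h ▸ hzW'), Finset.mem_univ _⟩, hcon⟩
    rw [hEeq, Finset.mem_erase, hW, Finset.mem_filter] at h1
    exact hv h1.2.2
  refine ⟨F, hinj, fun v => (hF v).1, fun v w hvw => (hgap v w hvw).1, hp, hnW,
    ⟨z, hzW', by omega, hz'⟩, ?_⟩
  intro v
  have h1 := tight F c hinj (fun v => (hF v).1) hdis z hz' (by omega) v
  refine ⟨(Finset.univ.filter fun w => F w < F v).card, ?_⟩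
  have h2 : ∀ w ∈ Finset.univ.filter (fun w => F w < F v),
      c w = 2 + if IsW w then 1 else 0 := by
    intro w _
    simp only [hc]
    by_cases h3 : IsW w
    · rw [if_neg (hWna w h3), if_pos h3]
    · rw [if_pos (hnW w h3), if_neg h3]
  rw [Finset.sum_congr rfl h2, Finset.sum_add_distrib, Finset.sum_const, ← Finset.card_filter,
    Finset.filter_filter, smul_eq_mul] at h1
  have h3 : (Finset.univ.filter fun w => F w < F v ∧ IsW w) =
      Finset.univ.filter fun w => IsW w ∧ F w < F v := by
    ext w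
    simp only [Finset.mem_filter, and_comm]
  rw [h3] at h1
  have h4 := (hF v).1
  omega

/-- A covering walk gives a satisfying assignment. -/
theorem sat_of_cover (k m : ℕ) (lit : ℕ → ℕ → Option Bool) (hk : 1 ≤ k)
    (pos : ℕ → Option (Lf k m)) (h : Cover (Av k m lit) (k * (4 * m + 7) + 3) pos) :
    Sat k m lit := by
  classical
  obtain ⟨F, hinj, hF1, hgap, hp, hnW, ⟨z, hzW, hFz, hzmax⟩, hcount⟩ :=
    structure_of_cover k m lit hk pos h
  set w : Lf k m → ℕ := fun v => (Finset.univ.filter fun u => IsW u ∧ F u < F v).card with hw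
  have hcount' : ∀ v, ∃ n, F v = 2 * n + w v + 1 := hcount
  have hwmono : ∀ u v, F u ≤ F v → w u ≤ w v := by
    intro u v huv
    refine Finset.card_le_card fun x hx => ?_
    simp only [Finset.mem_filter, Finset.mem_univ, true_and] at hx ⊢
    exact ⟨hx.1, lt_of_lt_of_le hx.2 huv⟩
  have hpar : ∀ j : ℕ, (j * (4 * m + 7)) % 2 = j % 2 := by
    intro j
    rw [Nat.mul_mod]
    have : (4 * m + 7) % 2 = 1 := by omega
    rw [this]
    omega
  have hK : ∀ j (hj : j < k + 1), F (.inl (.inl ⟨j, hj⟩)) = j * (4 * m + 7) + 1 := by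
    intro j hj
    have h1 := hp (.inl (.inl ⟨j, hj⟩))
    have h2 := hnW (.inl (.inl ⟨j, hj⟩)) (fun h => h)
    have h3 := hF1 (.inl (.inl ⟨j, hj⟩))
    have h4 := hpar j
    simp only [Av, AvK] at h1 h2
    omega
  have hwk : w (.inl (.inl ⟨k, by omega⟩)) ≤ k := by
    have h1 : (Finset.univ.filter fun u => IsW u ∧ F u < F (.inl (.inl ⟨k, by omega⟩))) ⊆
        (Finset.univ.filter fun u : Lf k m => IsW u).erase z := by
      intro u hu
      simp only [Finset.mem_filter, Finset.mem_univ, true_and, Finset.mem_erase] at hu ⊢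
      refine ⟨fun h => ?_, hu.1⟩
      have h2 := hu.2
      rw [h, hFz, hK k (by omega)] at h2
      omega
    have h2 := Finset.card_le_card h1
    rw [Finset.card_erase_of_mem (by simpa using hzW), card_isW] at h2
    exact h2
  have hwpar : ∀ j (hj : j < k + 1), w (.inl (.inl ⟨j, hj⟩)) % 2 = j % 2 := by
    intro j hj
    obtain ⟨n, hn⟩ := hcount' (.inl (.inl ⟨j, hj⟩))
    rw [hK j hj] at hn
    have := hpar j
    omega
  have hstep : ∀ j (hj : j + 1 < k + 1),
      w (.inl (.inl ⟨j, by omega⟩)) + 1 ≤ w (.inl (.inl ⟨j + 1, hj⟩)) := by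
    intro j hj
    have h1 := hwmono (.inl (.inl ⟨j, by omega⟩)) (.inl (.inl ⟨j + 1, hj⟩)) (by
      rw [hK, hK]
      have : (j + 1) * (4 * m + 7) = j * (4 * m + 7) + (4 * m + 7) := by ring
      omega)
    have h2 := hwpar j (by omega)
    have h3 := hwpar (j + 1) hj
    omega
  have hwlow : ∀ j (hj : j < k + 1), j ≤ w (.inl (.inl ⟨j, hj⟩)) := by
    intro j
    induction j with
    | zero => intro _; omega
    | succ j ih =>
      intro hj
      have h1 := ih (by omega)
      have h2 := hstep j hj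
      omega
  have hwup : ∀ d ≤ k, w (.inl (.inl ⟨k - d, by omega⟩)) + d ≤ k := by
    intro d
    induction d with
    | zero => intro _; simpa using hwk
    | succ d ih =>
      intro hd
      have h1 := ih (by omega)
      have h2 := hstep (k - (d + 1)) (by omega)
      have h3 : (⟨k - (d + 1) + 1, by omega⟩ : Fin (k + 1)) = ⟨k - d, by omega⟩ := by
        rw [Fin.mk.injEq]
        omega
      rw [h3] at h2
      omega
  have hwj : ∀ j (hj : j < k + 1), w (.inl (.inl ⟨j, hj⟩)) = j := by
    intro j hj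
    have h1 := hwlow j hj
    have h2 := hwup (k - j) (by omega)
    have h3 : (⟨k - (k - j), by omega⟩ : Fin (k + 1)) = ⟨j, hj⟩ := by
      rw [Fin.mk.injEq]
      omega
    rw [h3] at h2
    omega
  have key : ∀ c : Fin m, ∃ b < k,
      (lit b c = some true ∧ F (.inr (.inl c)) = b * (4 * m + 7) + 2 * c + 6 ∧
        w (.inr (.inl c)) = b + 1) ∨
      (lit b c = some false ∧ F (.inr (.inl c)) = b * (4 * m + 7) + 2 * (m + 2 + c) + 1 ∧
        w (.inr (.inl c)) = b) := by
    intro c
    have h1 := hp (.inr (.inl c))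
    have h2 := hnW (.inr (.inl c)) (fun h => h)
    have h3 := hF1 (.inr (.inl c))
    obtain ⟨n, hn⟩ := hcount' (.inr (.inl c))
    have hlt : F (.inr (.inl c)) + 1 ≤ k * (4 * m + 7) := by
      have h4 : F (.inr (.inl c)) ≠ F z := fun h => by
        have h5 := hinj h
        rw [← h5] at hzW
        exact hzW
      have h6 := hzmax (.inr (.inl c))
      have h7 := hgap (.inr (.inl c)) z (by omega)
      have h8 := hK k (by omega)
      have h9 : F (.inr (.inl c)) ≠ F (.inl (.inl ⟨k, by omega⟩)) := fun h => by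
        have h5 := hinj h
        cases h5
      have h10 := hgap (.inr (.inl c)) (.inl (.inl ⟨k, by omega⟩)) (by omega)
      omega
    obtain ⟨D, hD⟩ : ∃ D, F (.inr (.inl c)) = D + 1 := ⟨F (.inr (.inl c)) - 1, by omega⟩
    rw [hD] at h1 h2 hn hlt ⊢
    rw [Nat.add_sub_cancel] at h1
    have hdm := Nat.div_add_mod D (4 * m + 7)
    set b := D / (4 * m + 7) with hb
    set x := D % (4 * m + 7) with hx
    have hxP : x < 4 * m + 7 := Nat.mod_lt _ (by omega)
    rw [Nat.mul_comm] at hdm
    have hbk : b < k := by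
      by_contra hcon
      have : k * (4 * m + 7) ≤ b * (4 * m + 7) := Nat.mul_le_mul_right _ (by omega)
      omega
    have hKb := hK b (by omega)
    have hKb1 := hK (b + 1) (by omega)
    have hx2 : 2 ≤ x := by
      have h4 : F (.inr (.inl c)) ≠ F (.inl (.inl ⟨b, by omega⟩)) := fun h => by
        have h5 := hinj h
        cases h5
      have h5 := hgap (.inl (.inl ⟨b, by omega⟩)) (.inr (.inl c)) (by omega)
      omega
    have hb1 : (b + 1) * (4 * m + 7) = b * (4 * m + 7) + (4 * m + 7) := by ring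
    have hx1 : x + 1 < 4 * m + 7 := by
      have h5 := hgap (.inr (.inl c)) (.inl (.inl ⟨b + 1, by omega⟩)) (by omega)
      omega
    have hdiv : (D + 1) / (4 * m + 7) = b := by
      rw [Nat.div_eq_iff (by omega)]
      constructor <;> omega
    have hmod : (D + 1) % (4 * m + 7) = x + 1 := by
      have h5 := Nat.div_add_mod (D + 1) (4 * m + 7)
      rw [hdiv, Nat.mul_comm] at h5
      omega
    have hw1 := hwmono (.inl (.inl ⟨b, by omega⟩)) (.inr (.inl c)) (by omega)
    have hw2 := hwmono (.inr (.inl c)) (.inl (.inl ⟨b + 1, by omega⟩)) (by omega)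
    rw [hwj] at hw1 hw2
    have hpb := hpar b
    refine ⟨b, hbk, ?_⟩
    simp only [Av, AvC, hdiv, hmod, ← hb, ← hx] at h1 h2
    rcases h1 with h1 | h1 | h1
    · omega
    · omega
    rcases h2 with h2 | h2 | h2
    · omega
    · omega
    revert h1 h2
    rcases lit b c with _ | _ | _
    · simp only [AvB]
      omega
    · intro h1 h2
      simp only [AvB] at h1 h2
      refine Or.inr ⟨rfl, ?_, ?_⟩ <;> omega
    · intro h1 h2
      simp only [AvB] at h1 h2
      refine Or.inl ⟨rfl, ?_, ?_⟩ <;> omega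
  refine ⟨fun b => decide (∃ c : Fin m, lit b c = some true ∧
    F (.inr (.inl c)) = b * (4 * m + 7) + 2 * c + 6 ∧ w (.inr (.inl c)) = b + 1), ?_⟩
  intro c hc
  obtain ⟨b, hb, h1 | h1⟩ := key ⟨c, hc⟩
  · refine ⟨b, hb, ?_⟩
    rw [h1.1]
    congr 1
    symm
    rw [decide_eq_true_iff]
    exact ⟨⟨c, hc⟩, h1⟩
  · refine ⟨b, hb, ?_⟩
    rw [h1.1]
    congr 1
    symm
    rw [decide_eq_false_iff_not]
    rintro ⟨c', h2, h3, h4⟩
    have h5 := hwmono (.inr (.inl c')) (.inr (.inl ⟨c, hc⟩)) (by
      rw [h3, h1.2.1]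
      have := c'.2
      omega)
    rw [h4, h1.2.2] at h5
    omega

end Pool.Agent.H84.Star
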