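import Mathlib

/-!
Walks of an agent on a star with a time-varying set of available edges: necessary and sufficient
conditions in terms of visiting intervals.
-/

set_option autoImplicit false

namespace Pool.Agent.H84.Star

variable {L : Type*}

/-- A walk of the agent on a star with set of leaves `L` (the centre is `none`) that starts at the
centre at time `0` and visits all leaves by time `t`; the leaf `v` can be entered or left between
the times `τ` and `τ + 1` if `p v τ`. -/
structure Cover (p : L → ℕ → Prop) (t : ℕ) (pos : ℕ → Option L) : Prop where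
  start : pos 0 = none
  step : ∀ τ < t, pos (τ + 1) = pos τ ∨ ∃ v, p v τ ∧
    ((pos τ = none ∧ pos (τ + 1) = some v) ∨ (pos τ = some v ∧ pos (τ + 1) = none))
  all : ∀ v, ∃ τ ≤ t, pos τ = some v

/-- Disjoint visits give a walk. -/
lemma exists_cover (p : L → ℕ → Prop) (t : ℕ) (D c : L → ℕ) (hc : ∀ v, 2 ≤ c v)
    (hdis : ∀ v w, v ≠ w → D v + c v ≤ D w ∨ D w + c w ≤ D v)
    (hp : ∀ v, p v (D v)) (hp' : ∀ v, p v (D v + c v - 1)) (ht : ∀ v, D v + 1 ≤ t) :
    ∃ pos, Cover p t pos := by
  classical
  let pos : ℕ → Option L := fun T =>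
    if h : ∃ v, D v < T ∧ T < D v + c v then some h.choose else none
  have huniq : ∀ T v w, D v < T → T < D v + c v → D w < T → T < D w + c w → v = w := by
    intro T v w h1 h2 h3 h4
    by_contra hne
    rcases hdis v w hne with h | h <;> omega
  have hpos : ∀ T v, D v < T → T < D v + c v → pos T = some v := by
    intro T v h1 h2
    have h : ∃ v, D v < T ∧ T < D v + c v := ⟨v, h1, h2⟩
    simp only [pos, dif_pos h]
    exact congrArg some (huniq T _ _ h.choose_spec.1 h.choose_spec.2 h1 h2)
  have hnone : ∀ T, (∀ v, ¬ (D v < T ∧ T < D v + c v)) → pos T = none := by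
    intro T h
    have h' : ¬ ∃ v, D v < T ∧ T < D v + c v := by push Not; intro v hv; by_contra hc; exact h v ⟨hv, by omega⟩
    simp only [pos, dif_neg h']
  refine ⟨pos, ⟨?_, ?_, ?_⟩⟩
  · exact hnone 0 fun v hv => absurd hv.1 (by omega)
  · intro T _
    by_cases h1 : ∃ v, D v < T ∧ T < D v + c v
    · obtain ⟨v, h2, h3⟩ := h1
      rw [hpos T v h2 h3]
      by_cases h4 : T + 1 < D v + c v
      · left
        exact hpos (T + 1) v (by omega) h4
      · right
        have hT : T = D v + c v - 1 := by omega
        refine ⟨v, hT ▸ hp' v, Or.inr ⟨rfl, ?_⟩⟩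
        refine hnone _ fun w hw => ?_
        by_cases hwv : w = v
        · subst hwv; omega
        · rcases hdis w v hwv with h | h <;> omega
    · have h1' : pos T = none := hnone T fun v hv => h1 ⟨v, hv⟩
      rw [h1']
      by_cases h2 : ∃ v, D v < T + 1 ∧ T + 1 < D v + c v
      · obtain ⟨v, h3, h4⟩ := h2
        right
        have hT : T = D v := by
          by_contra hne
          exact h1 ⟨v, by omega, by omega⟩
        exact ⟨v, hT ▸ hp v, Or.inl ⟨rfl, hpos _ v h3 h4⟩⟩
      · left
        exact hnone _ fun v hv => h2 ⟨v, hv⟩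
  · intro v
    exact ⟨D v + 1, ht v, hpos _ v (by omega) (by have := hc v; omega)⟩

/-- A walk gives disjoint visiting intervals: `F v` is the time of the first visit. -/
lemma exists_visits (p : L → ℕ → Prop) (t : ℕ) (pos : ℕ → Option L) (h : Cover p t pos) :
    ∃ F : L → ℕ, Function.Injective F ∧ (∀ v, 1 ≤ F v ∧ F v ≤ t) ∧ (∀ v, p v (F v - 1)) ∧
      ∀ v w, F v < F w → F v + 2 ≤ F w ∧ (¬ p v (F v) → F v + 3 ≤ F w) := by
  classical
  have hex : ∀ v, ∃ τ, pos τ = some v := fun v => by
    obtain ⟨τ, _, hτ⟩ := h.all v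
    exact ⟨τ, hτ⟩
  let F : L → ℕ := fun v => Nat.find (hex v)
  have hF : ∀ v, pos (F v) = some v := fun v => Nat.find_spec (hex v)
  have hFmin : ∀ v τ, τ < F v → pos τ ≠ some v := fun v τ hτ => Nat.find_min (hex v) hτ
  have hFle : ∀ v, F v ≤ t := fun v => by
    obtain ⟨τ, hτ, hτ'⟩ := h.all v
    exact (Nat.find_min' (hex v) hτ').trans hτ
  have hFpos : ∀ v, 1 ≤ F v := by
    intro v
    by_contra hcon
    have h0 : F v = 0 := by omega
    have h1 := hF v
    rw [h0, h.start] at h1
    cases h1
  -- just before the first visit the agent is at the centre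
  have hbefore : ∀ v, pos (F v - 1) = none ∧ p v (F v - 1) := by
    intro v
    have h1 := h.step (F v - 1) (by have := hFpos v; have := hFle v; omega)
    have h2 : F v - 1 + 1 = F v := by have := hFpos v; omega
    rw [h2, hF v] at h1
    rcases h1 with h1 | ⟨w, hw, ⟨h3, h4⟩ | ⟨h3, h4⟩⟩
    · exact absurd h1.symm (hFmin v _ (by have := hFpos v; omega))
    · have h5 : v = w := by simpa using h4
      subst h5
      exact ⟨h3, hw⟩
    · cases h4
  have hinj : Function.Injective F := by
    intro v w hvw
    have h1 := hF v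
    have h2 := hF w
    rw [hvw, h2] at h1
    simpa using h1.symm
  refine ⟨F, hinj, fun v => ⟨hFpos v, hFle v⟩, fun v => (hbefore v).2, ?_⟩
  intro v w hvw
  have hw := (hbefore w).1
  have h1 : F v ≠ F w - 1 := by
    intro h2
    rw [← h2, hF v] at hw
    cases hw
  refine ⟨by omega, fun hnp => ?_⟩
  by_contra hcon
  have h2 : F w = F v + 2 := by omega
  have h3 : F w - 1 = F v + 1 := by omega
  rw [h3] at hw
  have h4 := h.step (F v) (by have := hFle w; omega)
  rw [hF v, hw] at h4
  rcases h4 with h4 | ⟨u, hu, ⟨h5, h6⟩ | ⟨h5, h6⟩⟩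
  · cases h4
  · cases h5
  · have h7 : v = u := by simpa using h5
    subst h7
    exact hnp hu

end Pool.Agent.H84.Star
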